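import Pool.Agent.Helper97.Ku.GoalsA

/-! Packet CHOICE (`MP_47bc22_lc`): the axiom of choice in the Boolean-valued universe. -/

namespace Pool.Agent.Helper97.Ku.PkChoice

open BSet

universe u v

/-- elimination of a supremum -/
theorem esup {L : Type u} [CompleteBooleanAlgebra L] {ι : Sort v} {f : ι → L} {g h : L}
    (hg : g ≤ ⨆ i, f i) (H : ∀ i, g ⊓ f i ≤ h) : g ≤ h := by
  have h1 : g ≤ g ⊓ ⨆ i, f i := le_inf le_rfl hg
  rw [inf_iSup_eq] at h1
  exact h1.trans (iSup_le H)

/-- the first element -/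
theorem first {L : Type u} [CompleteBooleanAlgebra L] {T : Type v} (r : T → T → Prop)
    (hr : WellFounded r) (f : T → L) (t : T) :
    f t ≤ ⨆ s, (f s ⊓ ⨅ s', ⨅ (_ : r s' s), (f s')ᶜ) := by
  induction t using hr.induction with
  | _ t ih =>
    have h1 : f t ≤ (f t ⊓ ⨅ s', ⨅ (_ : r s' t), (f s')ᶜ) ⊔ (⨅ s', ⨅ (_ : r s' t), (f s')ᶜ)ᶜ := by
      rw [sup_comm, ← sdiff_le_iff, sdiff_eq, compl_compl]
    refine h1.trans (sup_le (le_iSup (fun s => f s ⊓ ⨅ s', ⨅ (_ : r s' s), (f s')ᶜ) t) ?_)
    rw [compl_iInf]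
    refine iSup_le fun s' => ?_
    rw [compl_iInf]
    refine iSup_le fun hs => ?_
    rw [compl_compl]
    exact ih s' hs

theorem thm : G_CHOICE.{u} := by
  intro L _ a b H1 H2
  classical
  let T : Type u := Σ i : a.ix, (a.el i).ix
  let e : T → BSet L := fun t => (a.el t.1).el t.2
  let r : T → T → Prop := WellOrderingRel
  have hwf : WellFounded r := IsWellFounded.wf
  let ls : BSet L → T → L := fun x t => (e t).mem x ⊓ ⨅ t', ⨅ (_ : r t' t), ((e t').mem x)ᶜ
  have hls : ∀ t, Ext (fun x => ls x t) := fun t =>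
    Ext.inf (Ext.mem_right (e t)) (Ext.iInf fun t' => Ext.iInf fun _ => Ext.compl (Ext.mem_right _))
  let V : T → L := fun t => ⨆ i : a.ix, (a.bv i ⊓ ls (a.el i) t)
  have hV : ∀ t, V t = ⨆ x : BSet L, (x.mem a ⊓ ls x t) := fun t => (iSup_mem a _ (hls t)).symm
  refine ⟨mk T e V, ?_, ?_⟩
  · intro x
    have hA : b ⊓ x.mem a ≤ ⨆ t, (e t).mem x := by
      refine esup (H1 x) fun y => ?_
      have h2 : b ⊓ x.mem a ⊓ y.mem x ≤ ⨆ i, (a.bv i ⊓ x.eq (a.el i)) := by
        rw [← mem_def]
        exact inf_le_left.trans inf_le_right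
      refine esup h2 fun i => ?_
      have h3 : b ⊓ x.mem a ⊓ y.mem x ⊓ (a.bv i ⊓ x.eq (a.el i)) ≤ y.mem (a.el i) := by
        refine le_trans ?_ (mem_congr_right x (a.el i) y)
        exact le_inf (inf_le_right.trans inf_le_right) (inf_le_left.trans inf_le_right)
      refine esup (h3.trans (le_of_eq (mem_def y (a.el i)))) fun j => ?_
      refine le_trans ?_ (le_iSup _ (⟨i, j⟩ : T))
      refine le_trans ?_ (mem_congr_left y (e ⟨i, j⟩) x)
      refine le_inf (inf_le_right.trans inf_le_right) ?_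
      exact inf_le_left.trans (inf_le_left.trans inf_le_right)
    have hB : b ⊓ x.mem a ≤ ⨆ t, ls x t := by
      refine hA.trans (iSup_le fun t => ?_)
      exact first r hwf (fun t => (e t).mem x) t
    refine esup hB fun t => ?_
    refine le_trans ?_ (le_iSup _ (e t))
    refine le_inf (inf_le_right.trans inf_le_left) ?_
    refine le_trans ?_ (el_mem (mk T e V) t)
    change b ⊓ x.mem a ⊓ ls x t ≤ V t
    rw [hV]
    refine le_trans ?_ (le_iSup _ x)
    exact inf_le_inf_right _ inf_le_right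
  · intro x z z'
    have hB : ∀ z : BSet L, b ⊓ x.mem a ⊓ (z.mem x ⊓ z.mem (mk T e V)) ≤ ⨆ t, (ls x t ⊓ z.eq (e t)) := by
      intro z
      have h1 : b ⊓ x.mem a ⊓ (z.mem x ⊓ z.mem (mk T e V)) ≤ ⨆ t, (V t ⊓ z.eq (e t)) := by
        rw [mem_mk]
        exact inf_le_right.trans inf_le_right
      refine esup h1 fun t => ?_
      have h2 : b ⊓ x.mem a ⊓ (z.mem x ⊓ z.mem (mk T e V)) ⊓ (V t ⊓ z.eq (e t)) ≤
          ⨆ x1 : BSet L, (x1.mem a ⊓ ls x1 t) := by
        rw [← hV]
        exact inf_le_right.trans inf_le_left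
      refine esup h2 fun x1 => ?_
      refine le_trans ?_ (le_iSup _ t)
      set g := b ⊓ x.mem a ⊓ (z.mem x ⊓ z.mem (mk T e V)) ⊓ (V t ⊓ z.eq (e t)) ⊓
        (x1.mem a ⊓ ls x1 t) with hg
      have g1 : g ≤ b := inf_le_left.trans (inf_le_left.trans (inf_le_left.trans inf_le_left))
      have g2 : g ≤ x.mem a :=
        inf_le_left.trans (inf_le_left.trans (inf_le_left.trans inf_le_right))
      have g3 : g ≤ z.mem x :=
        inf_le_left.trans (inf_le_left.trans (inf_le_right.trans inf_le_left))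
      have g4 : g ≤ z.eq (e t) := inf_le_left.trans (inf_le_right.trans inf_le_right)
      have g5 : g ≤ x1.mem a := inf_le_right.trans inf_le_left
      have g6 : g ≤ ls x1 t := inf_le_right.trans inf_le_right
      have g7 : g ≤ (e t).mem x1 := g6.trans inf_le_left
      have g8 : g ≤ z.mem x1 := by
        refine le_trans (le_inf ?_ g7) (mem_congr_left (e t) z x1)
        rw [eq_comm']
        exact g4
      have g9 : g ≤ x.eq x1 :=
        (le_inf (le_inf (le_inf (le_inf g1 g2) g5) g3) g8).trans (H2 x x1 z)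
      have g10 : g ≤ ls x t := by
        refine le_trans (le_inf ?_ g6) (hls t x1 x)
        rw [eq_comm']
        exact g9
      exact le_inf g10 g4
    have hC : ∀ t t', t ≠ t' → ls x t ⊓ ls x t' ≤ ⊥ := by
      intro t t' hne
      have key : ∀ t t', r t t' → ls x t ⊓ ls x t' ≤ ⊥ := by
        intro t t' h
        have h1 : ls x t ⊓ ls x t' ≤ (e t).mem x := inf_le_left.trans inf_le_left
        have h2 : ls x t ⊓ ls x t' ≤ ((e t).mem x)ᶜ :=
          inf_le_right.trans (inf_le_right.trans ((iInf_le _ t).trans (iInf_le _ h)))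
        exact (le_inf h1 h2).trans (by rw [inf_compl_eq_bot])
      rcases trichotomous_of r t t' with h | h | h
      · exact key t t' h
      · exact absurd h hne
      · rw [inf_comm]; exact key t' t h
    set g := b ⊓ x.mem a ⊓ (z.mem x ⊓ z.mem (mk T e V)) ⊓ (z'.mem x ⊓ z'.mem (mk T e V)) with hg
    have g1 : g ≤ ⨆ t, (ls x t ⊓ z.eq (e t)) := inf_le_left.trans (hB z)
    have g2 : g ≤ ⨆ t, (ls x t ⊓ z'.eq (e t)) :=
      le_trans (inf_le_inf_right _ inf_le_left) (hB z')
    refine esup g1 fun t => ?_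
    refine esup (inf_le_left.trans g2) fun t' => ?_
    by_cases htt : t = t'
    · subst htt
      refine le_trans (le_inf (inf_le_left.trans (inf_le_right.trans inf_le_right)) ?_)
        (eq_trans z (e t) z')
      rw [eq_comm' (e t) z']
      exact inf_le_right.trans inf_le_right
    · refine le_trans (le_trans (le_inf (inf_le_left.trans (inf_le_right.trans inf_le_left))
        (inf_le_right.trans inf_le_left)) (hC t t' htt)) bot_le

end Pool.Agent.Helper97.Ku.PkChoice
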