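import Pool.Agent.Helper97.Ku.GoalsC

/-! Packet LIFT, CNTD. -/

namespace Pool.Agent.Helper97.Ku.PkLift

open Set

theorem om_Iio_countable (γ : Om) : (Iio γ).Countable := by
  have h1 : (γ : Ordinal.{0}) < Ordinal.omega 1 := γ.2
  have h2 : (Iio (γ : Ordinal.{0})).Countable := by
    rw [← Cardinal.le_aleph0_iff_set_countable, Cardinal.mk_Iio_ordinal,
      Cardinal.lift_le_aleph0]
    have h3 : (γ : Ordinal.{0}).card < Cardinal.aleph 1 := by
      rw [← Cardinal.lt_ord, Cardinal.ord_aleph]
      exact h1
    rw [← Cardinal.succ_aleph0] at h3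
    exact Order.lt_succ_iff.1 h3
  have h3 : (Iio γ) = (Subtype.val : Om → Ordinal.{0}) ⁻¹' (Iio (γ : Ordinal.{0})) := by
    ext x; exact Iff.rfl
  rw [h3]
  exact h2.preimage Subtype.val_injective

theorem lift : G_LIFT := by
  intro p γ hγ
  have hsub : ∀ s ∈ p.S, ∀ t : Set Om, t ⊆ Ico p.g γ → (s ∪ t) ∩ Iio p.g = s := by
    intro s hs t ht
    ext x
    constructor
    · rintro ⟨h1 | h1, h2⟩
      · exact h1
      · exact absurd h2 (not_lt.2 (ht h1).1)
    · intro h1
      exact ⟨Or.inl h1, p.S_sub s hs h1⟩
  let S : Set (Set Om) :=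
    (fun q : Set Om × Set Om => q.1 ∪ q.2) '' (p.S ×ˢ {t : Set Om | t.Finite ∧ t ⊆ Ico p.g γ})
  have hmem : ∀ s ∈ p.S, ∀ t : Set Om, t.Finite → t ⊆ Ico p.g γ → s ∪ t ∈ S :=
    fun s hs t ht ht' => ⟨(s, t), ⟨hs, ht, ht'⟩, rfl⟩
  have hS0 : ∀ s ∈ p.S, s ∈ S := by
    intro s hs
    have := hmem s hs ∅ finite_empty (empty_subset _)
    rwa [union_empty] at this
  let q : Cond :=
    { g := γ
      S := S
      v := p.v
      S_ct := by
        refine Countable.image ?_ _
        refine p.S_ct.prod ?_
        exact countable_ofPred_finite_subset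
          ((om_Iio_countable γ).mono fun x hx => hx.2)
      S_ne := by
        obtain ⟨s, hs⟩ := p.S_ne
        exact ⟨s, hS0 s hs⟩
      S_sub := by
        rintro _ ⟨⟨s, t⟩, ⟨hs, ht, ht'⟩, rfl⟩ x hx
        rcases hx with hx | hx
        · exact lt_of_lt_of_le (p.S_sub s hs hx) hγ
        · exact (ht' hx).2
      S_spl := by
        rintro _ ⟨⟨s, t⟩, ⟨hs, ht, ht'⟩, rfl⟩ β hβ
        simp only at hs ht ht' ⊢
        rcases lt_or_ge β p.g with h1 | h1
        · obtain ⟨s', hs', h2, h3⟩ := p.S_spl s hs β h1
          refine ⟨s' ∪ t, hmem s' hs' t ht ht', ?_, ?_⟩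
          · rw [union_inter_distrib_right, union_inter_distrib_right, h2]
          · have h4 : β ∉ t := fun h => absurd h1 (not_lt.2 (ht' h).1)
            intro h5
            apply h3
            constructor
            · intro h6
              rcases h5.1 (Or.inl h6) with h7 | h7
              · exact h7
              · exact absurd h7 h4
            · intro h6
              rcases h5.2 (Or.inl h6) with h7 | h7
              · exact h7
              · exact absurd h7 h4
        · have h4 : β ∉ s := fun h => absurd (p.S_sub s hs h) (not_lt.2 h1)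
          by_cases hb : β ∈ t
          · refine ⟨s ∪ (t \ {β}), hmem s hs _ (ht.subset sdiff_subset)
              (sdiff_subset.trans ht'), ?_, ?_⟩
            · ext x
              constructor
              · rintro ⟨h5 | h5, h6⟩
                · exact ⟨Or.inl h5, h6⟩
                · exact ⟨Or.inr h5.1, h6⟩
              · rintro ⟨h5 | h5, h6⟩
                · exact ⟨Or.inl h5, h6⟩
                · refine ⟨Or.inr ⟨h5, fun h => ?_⟩, h6⟩
                  have h7 : x < β := h6
                  rw [mem_singleton_iff] at h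
                  exact absurd h7 (by rw [h]; exact lt_irrefl β)
            · intro h5
              rcases h5.2 (Or.inr hb) with h6 | h6
              · exact h4 h6
              · exact h6.2 rfl
          · refine ⟨s ∪ (insert β t), hmem s hs _ (ht.insert β)
              (insert_subset ⟨h1, hβ⟩ ht'), ?_, ?_⟩
            · ext x
              constructor
              · rintro ⟨h5 | h5, h6⟩
                · exact ⟨Or.inl h5, h6⟩
                · rcases h5 with h5 | h5
                  · have h7 : x < β := h6
                    exact absurd h7 (by rw [h5]; exact lt_irrefl β)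
                  · exact ⟨Or.inr h5, h6⟩
              · rintro ⟨h5 | h5, h6⟩
                · exact ⟨Or.inl h5, h6⟩
                · exact ⟨Or.inr (Or.inr h5), h6⟩
            · intro h5
              rcases h5.1 (Or.inr (Or.inl rfl)) with h6 | h6
              · exact h4 h6
              · exact hb h6
      v_ct := p.v_ct
      v_ok := by
        intro c x hx
        have h1 := p.v_ok c x hx
        cases x with
        | nd s =>
          cases c with
          | row ξ => exact hS0 s h1
          | col ξ ν => exact absurd h1 (by simp [Ok])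
        | od η =>
          cases c with
          | row ξ => exact absurd h1 (by simp [Ok])
          | col ξ ν => exact h1 }
  refine ⟨q, ⟨hγ, ?_, fun c x hx => ⟨x, hx, p.res_self hx⟩⟩, rfl, rfl⟩
  ext s
  constructor
  · rintro ⟨_, ⟨⟨s', t⟩, ⟨hs, ht, ht'⟩, rfl⟩, rfl⟩
    simp only at hs ht ht' ⊢
    rw [hsub s' hs t ht']
    exact hs
  · intro hs
    exact ⟨s, hS0 s hs, inter_eq_left.mpr (p.S_sub s hs)⟩

theorem cntd (hs : G_SIGC) : G_CNTD := by
  intro ι _ p D hD hlow
  rcases isEmpty_or_nonempty ι with he | hne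
  · exact ⟨p, le_refl p, fun n => he.elim n⟩
  · obtain ⟨e, he⟩ := exists_surjective_nat ι
    choose! r hr1 hr2 using hD
    let P : ℕ → {q : Cond // q ≤ p} := fun k => Nat.rec ⟨p, le_refl p⟩
      (fun n q => ⟨r (e n) q.1, (hr1 (e n) q.1 q.2).trans q.2⟩) k
    have hstep : ∀ k, (P (k + 1)).1 ≤ (P k).1 ∧ (P (k + 1)).1 ∈ D (e k) := fun k =>
      ⟨hr1 (e k) (P k).1 (P k).2, hr2 (e k) (P k).1 (P k).2⟩
    obtain ⟨q, hq⟩ := hs (fun k => (P k).1) (fun k => (hstep k).1)
    refine ⟨q, hq 0, fun n => ?_⟩
    obtain ⟨k, hk⟩ := he n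
    rw [← hk]
    exact hlow (e k) _ q (hq (k + 1)) (hstep k).2

end Pool.Agent.Helper97.Ku.PkLift
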